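import Pool.Agent.Helper91.KZ.StG

/-! Completeness: elimination of the higher powers. -/

namespace Pool.Agent.Helper67.KZ

open Pool.Agent.Helper91.KZ PowerSeries
open scoped PowerSeries

universe u

section

variable {K A : Type u} [Field K] [Ring A] [Algebra K A]

theorem map_comm (c : K⟦X⟧) (w : A⟦X⟧) :
    PowerSeries.map (algebraMap K A) c * w = w * PowerSeries.map (algebraMap K A) c := by
  ext n
  rw [coeff_mul, coeff_mul, ← Finset.Nat.sum_antidiagonal_swap]
  refine Finset.sum_congr rfl fun x _ => ?_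
  simp only [Prod.fst_swap, Prod.snd_swap, coeff_map]
  exact Algebra.commutes _ _

/-- the algebra structure -/
@[reducible] noncomputable def algPS (K A : Type u) [Field K] [Ring A] [Algebra K A] :
    Algebra K⟦X⟧ A⟦X⟧ :=
  (PowerSeries.map (algebraMap K A)).toAlgebra' map_comm

attribute [local instance] algPS

theorem smul_eq (c : K⟦X⟧) (w : A⟦X⟧) : c • w = PowerSeries.map (algebraMap K A) c * w :=
  Algebra.smul_def c w

theorem coeff_zero_X_smul (w : A⟦X⟧) : coeff 0 ((X : K⟦X⟧) • w) = 0 := by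
  rw [smul_eq, map_X, coeff_zero_X_mul]

theorem coeff_succ_X_smul (n : ℕ) (w : A⟦X⟧) : coeff (n + 1) ((X : K⟦X⟧) • w) = coeff n w := by
  rw [smul_eq, map_X, coeff_succ_X_mul]

/-- all powers of `z` -/
noncomputable def Mi (K : Type u) {A : Type u} [Field K] [Ring A] [Algebra K A] (z : A⟦X⟧) :
    Submodule K⟦X⟧ A⟦X⟧ := Submodule.span _ (Set.range fun j : ℕ => z ^ j)

/-- the powers of `z` below `d` -/
noncomputable def Md (K : Type u) {A : Type u} [Field K] [Ring A] [Algebra K A] (z : A⟦X⟧) (d : ℕ) :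
    Submodule K⟦X⟧ A⟦X⟧ := Submodule.span _ (Set.range fun j : Fin d => z ^ (j : ℕ))

/-- the submodule `M_d + X M` -/
noncomputable def Ms (K : Type u) {A : Type u} [Field K] [Ring A] [Algebra K A] (z : A⟦X⟧) (d : ℕ) :
    Submodule K⟦X⟧ A⟦X⟧ := Md K z d ⊔ (Mi K z).map (LinearMap.lsmul K⟦X⟧ A⟦X⟧ X)

theorem pow_mem_Mi (z : A⟦X⟧) (j : ℕ) : z ^ j ∈ Mi K z := Submodule.subset_span ⟨j, rfl⟩

theorem mul_mem_Mi (z w : A⟦X⟧) (h : w ∈ Mi K z) : z * w ∈ Mi K z := by
  have : Mi K z ≤ (Mi K z).comap (LinearMap.mulLeft K⟦X⟧ z) := by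
    refine Submodule.span_le.2 ?_
    rintro _ ⟨j, rfl⟩
    rw [SetLike.mem_coe, Submodule.mem_comap, LinearMap.mulLeft_apply]
    simp only
    rw [← pow_succ']
    exact pow_mem_Mi z _
  exact this h

theorem X_mem_Ms (z w : A⟦X⟧) (d : ℕ) (h : w ∈ Mi K z) : (X : K⟦X⟧) • w ∈ Ms K z d :=
  Submodule.mem_sup_right ⟨w, h, rfl⟩

theorem pow_mem_Ms_lt (z : A⟦X⟧) (d j : ℕ) (h : j < d) : z ^ j ∈ Ms K z d :=
  Submodule.mem_sup_left (Submodule.subset_span ⟨⟨j, h⟩, rfl⟩)

theorem mul_mem_Ms (z w : A⟦X⟧) (d : ℕ) (hd : z ^ d ∈ Ms K z d) (h : w ∈ Ms K z d) :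
    z * w ∈ Ms K z d := by
  have : Ms K z d ≤ (Ms K z d).comap (LinearMap.mulLeft K⟦X⟧ z) := by
    refine sup_le ?_ ?_
    · refine Submodule.span_le.2 ?_
      rintro _ ⟨j, rfl⟩
      rw [SetLike.mem_coe, Submodule.mem_comap, LinearMap.mulLeft_apply]
      simp only
      rw [← pow_succ']
      rcases Nat.lt_or_ge ((j : ℕ) + 1) d with h1 | h1
      · exact pow_mem_Ms_lt z d _ h1
      · have h2 : (j : ℕ) + 1 = d := by
          have := j.2
          omega
        rw [h2]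
        exact hd
    · rintro _ ⟨v, hv, rfl⟩
      rw [Submodule.mem_comap, LinearMap.mulLeft_apply]
      change z * ((X : K⟦X⟧) • v) ∈ _
      rw [mul_smul_comm]
      exact X_mem_Ms z _ d (mul_mem_Mi z v hv)
  exact this h

theorem Mi_le (z : A⟦X⟧) (d : ℕ) (hd : z ^ d ∈ Ms K z d) : Mi K z ≤ Ms K z d := by
  refine Submodule.span_le.2 ?_
  rintro _ ⟨j, rfl⟩
  change z ^ j ∈ Ms K z d
  rcases Nat.lt_or_ge j d with h1 | h1
  · exact pow_mem_Ms_lt z d _ h1
  · induction j, h1 using Nat.le_induction with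
    | base => exact hd
    | succ m hm ih =>
      rw [pow_succ']
      exact mul_mem_Ms z _ d hd ih

theorem main (z : A⟦X⟧) (d : ℕ) (hd : z ^ d ∈ Ms K z d) :
    ∃ b : Fin d → K⟦X⟧, z ^ d = ∑ j, b j • z ^ (j : ℕ) := by
  have key : ∀ w : Mi K z, ∃ (a : Fin d → K⟦X⟧) (w' : Mi K z),
      (w : A⟦X⟧) = ∑ j, a j • z ^ (j : ℕ) + (X : K⟦X⟧) • (w' : A⟦X⟧) := by
    intro w
    obtain ⟨u, hu, v, hv, huv⟩ := Submodule.mem_sup.1 (Mi_le z d hd w.2)
    obtain ⟨a, ha⟩ := (Submodule.mem_span_range_iff_exists_fun _).1 hu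
    obtain ⟨w', hw', rfl⟩ := hv
    refine ⟨a, ⟨w', hw'⟩, ?_⟩
    rw [← huv, ← ha]
    rfl
  choose cf st hcf using key
  let B : Mi K z → Fin d → K⟦X⟧ := fun w j =>
    PowerSeries.mk fun N => ∑ i ∈ Finset.range (N + 1), coeff (N - i) (cf (st^[i] w) j)
  have hB : ∀ w j, B w j = cf w j + X * B (st w) j := by
    intro w j
    ext N
    rw [map_add, coeff_mk, Finset.sum_range_succ']
    simp only [Function.iterate_zero, id_eq, Nat.sub_zero]
    rw [add_comm]
    congr 1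
    cases N with
    | zero => simp
    | succ N =>
      rw [coeff_succ_X_mul, coeff_mk]
      refine Finset.sum_congr rfl fun i _ => ?_
      rw [Function.iterate_succ_apply, Nat.add_sub_add_right]
  have hD : ∀ w : Mi K z, (w : A⟦X⟧) - ∑ j, B w j • z ^ (j : ℕ) =
      (X : K⟦X⟧) • ((st w : A⟦X⟧) - ∑ j, B (st w) j • z ^ (j : ℕ)) := by
    intro w
    simp only [hB w, add_smul, Finset.sum_add_distrib, mul_smul, smul_sub, Finset.smul_sum]
    rw [hcf w]
    simp only [add_sub_add_left_eq_sub]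
  have hz : ∀ (N : ℕ) (w : Mi K z), coeff N ((w : A⟦X⟧) - ∑ j, B w j • z ^ (j : ℕ)) = 0 := by
    intro N
    induction N with
    | zero =>
      intro w
      rw [hD w]
      exact coeff_zero_X_smul _
    | succ N ih =>
      intro w
      rw [hD w, coeff_succ_X_smul]
      exact ih _
  refine ⟨B ⟨z ^ d, pow_mem_Mi z d⟩, ?_⟩
  rw [← sub_eq_zero]
  ext N
  exact hz N ⟨z ^ d, pow_mem_Mi z d⟩

end

attribute [local instance] algPS in
theorem CMP : ST_CMP.{u} := by
  intro K A _ _ _ n d z c hdn hrel hcd hc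
  have hd : z ^ d ∈ Ms K z d := by
    have h1 : ∑ j ∈ Finset.range (n + 1), c j • z ^ j = 0 := by
      rw [← hrel]
      exact Finset.sum_congr rfl fun j _ => smul_eq _ _
    have hmem : d ∈ Finset.range (n + 1) := Finset.mem_range.2 (by omega)
    rw [← Finset.add_sum_erase _ _ hmem] at h1
    have h2 : c d • z ^ d ∈ Ms K z d := by
      rw [eq_neg_of_add_eq_zero_left h1]
      refine Submodule.neg_mem _ (Submodule.sum_mem _ fun j hj => ?_)
      rw [Finset.mem_erase, Finset.mem_range] at hj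
      rcases Nat.lt_or_ge j d with h3 | h3
      · exact Submodule.smul_mem _ _ (pow_mem_Ms_lt z d j h3)
      · have h4 := hc j (by omega) (by omega)
        obtain ⟨e, he⟩ := X_dvd_iff.2 h4
        rw [he, mul_smul]
        exact X_mem_Ms z _ d (Submodule.smul_mem _ _ (pow_mem_Mi z j))
    have h3 : (c d)⁻¹ • (c d • z ^ d) ∈ Ms K z d := Submodule.smul_mem _ _ h2
    rwa [smul_smul, PowerSeries.inv_mul_cancel _ hcd, one_smul] at h3
  obtain ⟨b, hb⟩ := main z d hd
  refine ⟨fun j => if h : j < d then b ⟨j, h⟩ else 0, ?_⟩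
  rw [hb, ← Fin.sum_univ_eq_sum_range (fun j => PowerSeries.map (algebraMap K A)
    (if h : j < d then b ⟨j, h⟩ else 0) * z ^ j) d]
  refine Finset.sum_congr rfl fun j _ => ?_
  rw [smul_eq, dif_pos j.2]

end Pool.Agent.Helper67.KZ
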