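import Pool.Agent.Helper91.KZ.StT

/-! Calculus of cohomologous functions. -/

namespace Pool.Agent.Helper67.KZ

open Pool.Agent.Helper91.KZ

universe u

theorem COH : ST_COH.{u} := by
  intro E N _ _ _ a b c d ha hb hc hd
  refine ⟨⟨fun _ => 1, fun _ => one_ne_zero, fun g h => by simp⟩, ?_, ?_, ?_, ?_, ?_, ?_⟩
  · rintro ⟨β, h0, h1⟩
    refine ⟨fun g => (β g)⁻¹, fun g => inv_ne_zero (h0 g), fun g h => ?_⟩
    have e := h1 g h
    have h2 : g (β h) ≠ 0 := by
      rw [Ne, map_eq_zero]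
      exact h0 h
    have h3 := h0 g
    have h4 := h0 (g * h)
    rw [map_inv₀]
    field_simp
    linear_combination -e
  · rintro ⟨β, h0, h1⟩ ⟨γ, k0, k1⟩
    refine ⟨fun g => β g * γ g, fun g => mul_ne_zero (h0 g) (k0 g), fun g h => ?_⟩
    have e := h1 g h
    have e' := k1 g h
    simp only [map_mul]
    linear_combination γ (g * h) * e + β g * g (β h) * e'
  · rintro ⟨β, h0, h1⟩ ⟨γ, k0, k1⟩
    refine ⟨fun g => β g * γ g, fun g => mul_ne_zero (h0 g) (k0 g), fun g h => ?_⟩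
    have e := h1 g h
    have e' := k1 g h
    simp only [map_mul]
    linear_combination c g h * γ (g * h) * e + β g * g (β h) * b g h * e'
  · rintro m ⟨β, h0, h1⟩
    refine ⟨fun g => β g ^ m, fun g => pow_ne_zero _ (h0 g), fun g h => ?_⟩
    have e := congrArg (fun x => x ^ m) (h1 g h)
    simp only [mul_pow] at e
    simp only [map_pow]
    exact e
  · rintro ⟨β, h0, h1⟩
    refine ⟨fun g => (β g)⁻¹, fun g => inv_ne_zero (h0 g), fun g h => ?_⟩
    have e := congrArg (fun x => x⁻¹) (h1 g h)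
    simp only [mul_inv] at e
    simp only [map_inv₀]
    exact e
  · rintro m n hmn ⟨β, h0, h1⟩ ⟨γ, k0, k1⟩
    refine ⟨fun g => β g ^ (m.gcdA n) * γ g ^ (m.gcdB n),
      fun g => mul_ne_zero (zpow_ne_zero _ (h0 g)) (zpow_ne_zero _ (k0 g)), fun g h => ?_⟩
    have e := congrArg (fun x => x ^ (m.gcdA n)) (h1 g h)
    have e' := congrArg (fun x => x ^ (m.gcdB n)) (k1 g h)
    simp only [mul_one] at e e'
    rw [mul_zpow, mul_zpow, ← zpow_natCast, ← zpow_mul] at e e'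
    have h2 : a g h = a g h ^ ((m : ℤ) * m.gcdA n) * a g h ^ ((n : ℤ) * m.gcdB n) := by
      rw [← zpow_add₀ (ha g h), ← Nat.gcd_eq_gcd_ab, hmn]
      simp
    rw [h2]
    simp only [map_mul, map_zpow₀, mul_one]
    calc a g h ^ ((m : ℤ) * m.gcdA n) * a g h ^ ((n : ℤ) * m.gcdB n) *
          (β (g * h) ^ (m.gcdA n) * γ (g * h) ^ (m.gcdB n))
        = (a g h ^ ((m : ℤ) * m.gcdA n) * β (g * h) ^ (m.gcdA n)) *
          (a g h ^ ((n : ℤ) * m.gcdB n) * γ (g * h) ^ (m.gcdB n)) := by ring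
      _ = _ := by rw [e, e']; ring

end Pool.Agent.Helper67.KZ
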