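import Pool.Agent.Helper91.KZ.StS

/-! Division rings and matrix algebras. -/

namespace Pool.Agent.Helper67.KZ

open Pool.Agent.Helper91.KZ Matrix

universe u

/-- matrices of size `1` -/
def m1 (M Δ : Type u) [Field M] [Ring Δ] [Algebra M Δ] : Matrix (Fin 1) (Fin 1) Δ ≃ₐ[M] Δ where
  toFun A := A 0 0
  invFun d := of fun _ _ => d
  left_inv A := by
    ext i j
    rw [Subsingleton.elim i 0, Subsingleton.elim j 0]
    rfl
  right_inv d := rfl
  map_mul' A B := by
    rw [mul_apply, Fin.sum_univ_one]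
  map_add' A B := rfl
  commutes' m := by
    rw [algebraMap_matrix_apply, if_pos rfl]

theorem DVS : ST_DVS.{u} := by
  intro M _
  refine ⟨?_, ?_, ?_, ?_⟩
  · intro R Δ _ _ _ _ r hR h
    obtain ⟨h0, ⟨e⟩⟩ := h
    by_contra hr
    have h1 : ∀ i : Fin r, single i i (1 : Δ) ≠ 0 := by
      intro i hi
      have h2 : (1 : Δ) = 0 := by
        have := congrFun (congrFun hi i) i
        rwa [single_apply_same] at this
      apply hR.1
      apply e.injective
      ext a b
      rw [← mul_one (e 1 a b), ← mul_one (e 0 a b), h2, mul_zero, mul_zero]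
    let i : Fin r := ⟨0, h0⟩
    let j : Fin r := ⟨1, by omega⟩
    have hij : i ≠ j := fun hh => absurd (congrArg Fin.val hh) (by simp [i, j])
    have h3 : e.symm (single i i 1) ≠ 0 := by
      rw [Ne, map_eq_zero_iff _ e.symm.injective]
      exact h1 i
    have h4 : e.symm (single i i 1) * e.symm (single j j 1) = 0 := by
      rw [← map_mul, single_mul_single_of_ne (1 : Δ) _ _ _ hij, map_zero]
    have h5 := ((hR.2 _ h3).mul_right_eq_zero).1 h4
    rw [map_eq_zero_iff _ e.symm.injective] at h5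
    exact h1 j h5
  · intro R Δ _ _ _ _ h
    obtain ⟨-, ⟨e⟩⟩ := h
    exact ⟨e.trans (m1 M Δ)⟩
  · intro R Δ _ _ _ _ h
    obtain ⟨e⟩ := h
    exact ⟨one_pos, ⟨e.trans (m1 M Δ).symm⟩⟩
  · intro R _ _ hR
    have : Nontrivial R := ⟨⟨1, 0, hR.1⟩⟩
    have h1 : ∀ a : R, IsUnit a ∨ a = 0 := fun a => by
      by_cases h : a = 0
      · exact Or.inr h
      · exact Or.inl (hR.2 a h)
    exact ⟨R, DivisionRing.ofIsUnitOrEqZero h1, inferInstance, ⟨AlgEquiv.refl⟩⟩

end Pool.Agent.Helper67.KZ
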