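import Pool.Agent.Helper91.KZ.StS

/-! Galois extensions containing two given ones. -/

namespace Pool.Agent.Helper67.KZ

open Pool.Agent.Helper91.KZ IntermediateField

universe u

theorem GAL : ST_GAL.{u} := by
  intro E M M' _ _ _ _ _ _ _ _
  let L := AlgebraicClosure M
  have hA : Algebra.IsAlgebraic E L := Algebra.IsAlgebraic.trans E M L
  have hC : IsAlgClosure E L := ⟨inferInstance, hA⟩
  have hN : Normal E L := IsAlgClosure.normal E L
  let i : M →ₐ[E] L := IsScalarTower.toAlgHom E M L
  let j : M' →ₐ[E] L := IsAlgClosed.lift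
  have h1 : FiniteDimensional E i.fieldRange :=
    Module.Finite.equiv (AlgEquiv.ofInjectiveField i).toLinearEquiv
  have h2 : FiniteDimensional E j.fieldRange :=
    Module.Finite.equiv (AlgEquiv.ofInjectiveField j).toLinearEquiv
  let K₀ : IntermediateField E L := i.fieldRange ⊔ j.fieldRange
  have h3 : FiniteDimensional E K₀ := inferInstance
  let N : IntermediateField E L := normalClosure E K₀ L
  have h4 : FiniteDimensional E N := inferInstance
  have h5 : Normal E N := inferInstance
  have h6 : IsGalois E N := ⟨⟩
  have h7 : K₀ ≤ N := K₀.le_normalClosure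
  let f : M →ₐ[E] N := i.codRestrict N.toSubalgebra (fun x => h7 (le_sup_left (a := i.fieldRange)
    (b := j.fieldRange) ⟨x, rfl⟩))
  let g : M' →ₐ[E] N := j.codRestrict N.toSubalgebra (fun x => h7 (le_sup_right (a := i.fieldRange)
    (b := j.fieldRange) ⟨x, rfl⟩))
  let aM : Algebra M N := f.toRingHom.toAlgebra
  have hT : IsScalarTower E M N := IsScalarTower.of_algebraMap_eq' f.comp_algebraMap.symm
  exact ⟨N, inferInstance, inferInstance, aM, hT, h4, Module.Finite.of_restrictScalars_finite E M N,
    h6, ⟨g⟩⟩

end Pool.Agent.Helper67.KZ
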