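import Pool.Agent.Helper91.KZ.StT

/-! Galois descent for semilinear actions. -/

namespace Pool.Agent.Helper67.KZ

open Pool.Agent.Helper91.KZ

universe u

theorem GDS : ST_GDS.{u} := by
  intro E N V _ _ _ _ _ _ _ R hsl hco hone
  have hfix : ∀ (v : V) (h : N ≃ₐ[E] N), R h (∑ g, R g v) = ∑ g, R g v := by
    intro v h
    rw [map_sum]
    simp only [hco]
    exact Fintype.sum_bijective (fun g => h * g) (Group.mulLeft_bijective h) _ _ (fun _ => rfl)
  constructor
  · intro v
    by_contra hv
    obtain ⟨f, hf1, hf2⟩ := Submodule.exists_le_ker_of_notMem hv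
    have h1 : ∀ n : N, ∑ g, f (R g v) * g n = 0 := by
      intro n
      have h2 : ∑ g, R g (n • v) ∈ Submodule.span N {w : V | ∀ g, R g w = w} :=
        Submodule.subset_span (fun g => hfix (n • v) g)
      have h3 := hf2 h2
      rw [LinearMap.mem_ker, map_sum] at h3
      rw [← h3]
      refine Finset.sum_congr rfl fun g _ => ?_
      rw [hsl, map_smul, smul_eq_mul, mul_comm]
    have hli : LinearIndependent N (fun g : N ≃ₐ[E] N => (g.toAlgHom : N →ₐ[E] N).toLinearMap) :=
      (linearIndependent_algHom_toLinearMap E N N).comp _ AlgEquiv.coe_toAlgHom_injective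
    rw [Fintype.linearIndependent_iff] at hli
    have h4 := hli (fun g => f (R g v)) (by
      ext n
      simpa using h1 n) 1
    simp only [hone] at h4
    exact hf1 h4
  · intro ι _ w hw hE
    rw [Fintype.linearIndependent_iff]
    intro c hc i
    have h1 : ∀ n : N, ∑ j, algebraMap E N (Algebra.trace E N (n * c j)) • w j = 0 := by
      intro n
      have h2 : ∑ g, R g (n • ∑ j, c j • w j) = 0 := by
        rw [hc]
        simp
      rw [← h2]
      simp only [trace_eq_sum_automorphisms, Finset.sum_smul, Finset.smul_sum, map_sum, smul_smul,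
        hsl, hw]
      rw [Finset.sum_comm]
    by_contra hci
    have h2 : Algebra.trace E N = 0 := by
      ext m
      have h3 := congrFun (hE _ (h1 (m * (c i)⁻¹))) i
      rw [inv_mul_cancel_right₀ hci] at h3
      exact h3
    exact Algebra.trace_ne_zero E N h2

end Pool.Agent.Helper67.KZ
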