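import Pool.Agent.Helper91.KZ.StT

/-! The period divides the degree. -/

namespace Pool.Agent.Helper67.KZ

open Pool.Agent.Helper91.KZ

universe u

theorem PER : ST_PER.{u} := by
  intro E N K _ _ _ _ _ _ _ n T a hT
  have hinst := T.nt
  have : Module.Finite N T.V := Module.finite_of_finrank_pos (by rw [hT.fd]; exact hT.n0)
  let b := Module.finBasisOfFinrankEq N T.V hT.fd
  let A : (N ≃ₐ[E] N) → Matrix (Fin n) (Fin n) N := fun g => Matrix.of fun i j => b.repr (T.R g (b j)) i
  have hA : ∀ g j, T.R g (b j) = ∑ i, A g i j • b i := by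
    intro g j
    exact (b.sum_repr (T.R g (b j))).symm
  have hR : ∀ g (x : Fin n → N), T.R g (∑ j, x j • b j) =
      ∑ i, ((A g).mulVec (fun j => g (x j)) i) • b i := by
    intro g x
    rw [map_sum]
    simp only [T.rn, hA, Finset.smul_sum, smul_smul]
    rw [Finset.sum_comm]
    refine Finset.sum_congr rfl fun i _ => ?_
    rw [← Finset.sum_smul]
    congr 1
    simp only [Matrix.mulVec, dotProduct]
    exact Finset.sum_congr rfl fun j _ => mul_comm _ _
  have hmul : ∀ g h, A g * (A h).map g = a g h • A (g * h) := by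
    intro g h
    ext i j
    have h1 : T.R g (T.R h (b j)) = a g h • T.R (g * h) (b j) := by
      rw [T.co, hT.ua, T.bn]
    rw [hA h j, hR g (fun i => A h i j), hA (g * h) j, Finset.smul_sum] at h1
    simp only [smul_smul] at h1
    have h2 := congrArg (fun v => b.repr v i) h1
    simp only [map_sum, map_smul, Finsupp.coe_finset_sum, Finset.sum_apply, Finsupp.smul_apply,
      Module.Basis.repr_self, smul_eq_mul, Finsupp.single_apply, mul_ite, mul_one, mul_zero,
      Finset.sum_ite_eq', Finset.mem_univ, if_true] at h2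
    rw [Matrix.mul_apply, Matrix.smul_apply, smul_eq_mul, ← h2]
    rfl
  have hdet : ∀ g, (A g).det ≠ 0 := by
    intro g hd
    obtain ⟨x, hx0, hx⟩ := Matrix.exists_mulVec_eq_zero_iff.2 hd
    have h1 := hR g (fun j => g.symm (x j))
    simp only [AlgEquiv.apply_symm_apply] at h1
    change (A g).mulVec (fun j => x j) = 0 at hx
    rw [hx] at h1
    simp only [Pi.zero_apply, zero_smul, Finset.sum_const_zero] at h1
    have h2 : ∑ j, g.symm (x j) • b j = 0 := (T.R g).injective (by rw [h1, map_zero])
    have h3 := Fintype.linearIndependent_iff.1 b.linearIndependent _ h2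
    apply hx0
    funext j
    have h4 := h3 j
    rwa [map_eq_zero] at h4
  refine ⟨fun g => (A g).det, hdet, fun g h => ?_⟩
  have h1 := congrArg Matrix.det (hmul g h)
  rw [Matrix.det_mul, Matrix.det_smul, Fintype.card_fin] at h1
  have h2 : ((A h).map g).det = g ((A h).det) := (RingHom.map_det (g : N →+* N) (A h)).symm
  rw [h2] at h1
  simp only [mul_one]
  exact h1.symm

end Pool.Agent.Helper67.KZ
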