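import Pool.Agent.Helper91.KZ.StT

/-! A trivial class means a split algebra. -/

namespace Pool.Agent.Helper67.KZ

open Pool.Agent.Helper91.KZ

universe u

section

variable {E N K : Type u} [Field E] [Field N] [Algebra E N] [FiniteDimensional E N]
  [IsGalois E N] [DivisionRing K] [Algebra E K] (T : TW E N K) (β : (N ≃ₐ[E] N) → N)

/-- the corrected action -/
def SS (g : N ≃ₐ[E] N) : T.V →+ T.V where
  toFun v := (β g)⁻¹ • T.R g v
  map_zero' := by rw [map_zero, smul_zero]
  map_add' v w := by rw [map_add, smul_add]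

theorem SS_apply (g : N ≃ₐ[E] N) (v : T.V) : SS T β g v = (β g)⁻¹ • T.R g v := rfl

/-- the fixed vectors -/
def FX : Submodule K T.V where
  carrier := {w | ∀ g, SS T β g w = w}
  add_mem' := fun {v w} hv hw g => by rw [map_add, hv g, hw g]
  zero_mem' := fun g => map_zero _
  smul_mem' := fun k w hw g => by
    rw [SS_apply, T.rx, T.nx, ← SS_apply, hw g]

end

theorem TRI (hG : ST_GDS.{u}) : ST_TRI.{u} := by
  intro E N K _ _ _ _ _ _ _ n T a hCD hT hCoh
  obtain ⟨β, h0, h1⟩ := hCoh
  have hinst := T.nt
  have hsl : ∀ g (m : N) v, SS T β g (m • v) = g m • SS T β g v := by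
    intro g m v
    rw [SS_apply, SS_apply, T.rn, smul_comm]
  have hco : ∀ g h v, SS T β g (SS T β h v) = SS T β (g * h) v := by
    intro g h v
    rw [SS_apply, SS_apply, SS_apply, T.rn, T.co, hT.ua, T.bn, smul_smul, smul_smul]
    congr 1
    have h2 := h1 g h
    have h3 : g (β h) ≠ 0 := by
      rw [Ne, map_eq_zero]
      exact h0 h
    have h4 := h0 g
    have h5 := h0 (g * h)
    rw [map_inv₀]
    field_simp
    linear_combination h2
  have hone : ∀ v, SS T β 1 v = v := by
    intro v
    have h2 := hco 1 1 v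
    rw [mul_one] at h2
    have hinj : Function.Injective (SS T β 1) := by
      intro x y hxy
      rw [SS_apply, SS_apply] at hxy
      exact (T.R 1).injective (smul_right_injective T.V (inv_ne_zero (h0 1)) hxy)
    exact hinj h2
  have hspan : ∀ v : T.V, v ∈ Submodule.span N {w : T.V | ∀ g, SS T β g w = w} :=
    (hG E N T.V (SS T β) hsl hco hone).1
  have hind : ∀ (ι : Type) [Fintype ι] (w : ι → T.V), (∀ i g, SS T β g (w i) = w i) →
    (∀ c : ι → E, ∑ i, algebraMap E N (c i) • w i = 0 → c = 0) → LinearIndependent N w :=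
    (hG E N T.V (SS T β) hsl hco hone).2
  letI iE : Module E (FX T β) := Module.compHom (FX T β) (algebraMap E K)
  have hE : ∀ (e : E) (w : FX T β), ((e • w : FX T β) : T.V) = algebraMap E N e • (w : T.V) := by
    intro e w
    rw [T.ee]
    rfl
  haveI iS : IsScalarTower E K (FX T β) := ⟨fun e k w => by
    rw [Algebra.smul_def, mul_smul]
    rfl⟩
  haveI : Module.Finite N T.V := Module.finite_of_finrank_pos (by rw [hT.fd]; exact hT.n0)
  have hind2 : ∀ (ι : Type) [Fintype ι] (w : ι → FX T β), LinearIndependent E w →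
      LinearIndependent N (fun i => (w i : T.V)) := by
    intro ι _ w hw
    refine hind ι _ (fun i g => (w i).2 g) (fun c hc => ?_)
    rw [Fintype.linearIndependent_iff] at hw
    funext i
    refine hw c ?_ i
    apply Subtype.ext
    rw [Submodule.coe_sum, Submodule.coe_zero, ← hc]
    exact Finset.sum_congr rfl fun j _ => hE _ _
  have hrank : Module.rank E (FX T β) ≤ n := by
    refine rank_le fun s hs => ?_
    have h2 := hind2 (Fin s.card) (fun i => ((s.equivFin.symm i : s) : FX T β))
      (hs.comp _ s.equivFin.symm.injective)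
    have h3 := h2.fintype_card_le_finrank
    rwa [Fintype.card_fin, hT.fd] at h3
  haveI : Module.Finite E (FX T β) := by
    rw [← Module.rank_lt_aleph0_iff]
    exact hrank.trans_lt (Cardinal.natCast_lt_aleph0)
  let b := Module.finBasis E (FX T β)
  have hb := hind2 _ b b.linearIndependent
  have hsp : ⊤ ≤ Submodule.span N (Set.range fun i => (b i : T.V)) := by
    intro v _
    refine Submodule.span_le.2 ?_ (hspan v)
    intro w hw
    have h2 := b.sum_repr (⟨w, hw⟩ : FX T β)
    have h3 := congrArg Subtype.val h2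
    rw [Submodule.coe_sum] at h3
    rw [SetLike.mem_coe]
    rw [← show _ = w from h3]
    refine Submodule.sum_mem _ fun i _ => ?_
    rw [hE]
    exact Submodule.smul_mem _ _ (Submodule.subset_span ⟨i, rfl⟩)
  have h4 : Module.finrank N T.V = Module.finrank E (FX T β) := by
    rw [Module.finrank_eq_card_basis (Module.Basis.mk hb hsp), Fintype.card_fin]
  have h5 := Module.finrank_mul_finrank E K (FX T β)
  rw [← h4, hT.fd, hCD.2.2.2] at h5
  have hn := hT.n0
  have h6 : n * (n * Module.finrank K (FX T β)) = n * 1 := by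
    rw [mul_one]
    rw [← mul_assoc, ← sq]
    exact h5
  exact Nat.eq_one_of_mul_eq_one_right (Nat.eq_of_mul_eq_mul_left hn h6)

end Pool.Agent.Helper67.KZ
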