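import Pool.Agent.Helper91.KZ.StS

/-! Uniqueness of the division algebra and of the size in the theorem of Wedderburn. -/

namespace Pool.Agent.Helper67.KZ

open Pool.Agent.Helper91.KZ Matrix

universe u

section

variable {M Δ Δ' : Type u} [Field M] [DivisionRing Δ] [Algebra M Δ] [DivisionRing Δ']
  [Algebra M Δ'] {r r' : ℕ}

/-- the range of the idempotent `E_{ii}` -/
def WW (e : Matrix (Fin r) (Fin r) Δ ≃ₐ[M] Matrix (Fin r') (Fin r') Δ') (i : Fin r) :
    Submodule Δ' (Fin r' → Δ') where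
  carrier := {v | v ᵥ* e (single i i 1) = v}
  add_mem' := fun {a b} ha hb => by
    simp only [Set.mem_ofPred_eq] at *
    rw [add_vecMul, ha, hb]
  zero_mem' := by simp
  smul_mem' := fun c x hx => by
    simp only [Set.mem_ofPred_eq] at *
    rw [smul_vecMul, hx]

theorem mem_WW (e : Matrix (Fin r) (Fin r) Δ ≃ₐ[M] Matrix (Fin r') (Fin r') Δ') (i : Fin r)
    (v : Fin r' → Δ') : v ∈ WW e i ↔ v ᵥ* e (single i i 1) = v := Iff.rfl

/-- the vectors are tuples of elements of the range -/
def eqW (e : Matrix (Fin r) (Fin r) Δ ≃ₐ[M] Matrix (Fin r') (Fin r') Δ') (i : Fin r) :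
    (Fin r' → Δ') ≃ₗ[Δ'] (Fin r → WW e i) where
  toFun v := fun j => ⟨v ᵥ* e (single j i 1), by
    rw [mem_WW, vecMul_vecMul, ← map_mul, single_mul_single_same, one_mul]⟩
  map_add' v w := by
    ext j
    simp only [add_vecMul, Pi.add_apply, Submodule.coe_add]
  map_smul' c v := by
    ext j
    simp only [smul_vecMul, Pi.smul_apply, Submodule.coe_smul, RingHom.id_apply]
  invFun w := ∑ j, (w j : Fin r' → Δ') ᵥ* e (single i j 1)
  left_inv v := by
    simp only [vecMul_vecMul]
    rw [← vecMul_sum]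
    have : ∑ x, e (single x i 1) * e (single i x 1) = 1 := by
      simp only [← map_mul, single_mul_single_same, one_mul]
      rw [← map_sum, sum_single_one, map_one]
    rw [this, vecMul_one]
  right_inv w := by
    funext k
    apply Subtype.ext
    simp only
    rw [sum_vecMul, Finset.sum_eq_single k]
    · rw [vecMul_vecMul, ← map_mul, single_mul_single_same, one_mul]
      exact (w k).2
    · intro b _ hb
      rw [vecMul_vecMul, ← map_mul, single_mul_single_of_ne (1 : Δ) _ _ _ hb, map_zero, vecMul_zero]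
    · intro h
      exact absurd (Finset.mem_univ k) h

theorem rank_eq (e : Matrix (Fin r) (Fin r) Δ ≃ₐ[M] Matrix (Fin r') (Fin r') Δ') (i : Fin r) :
    r' = r * Module.finrank Δ' (WW e i) := by
  have h := (eqW e i).finrank_eq
  rw [Module.finrank_fin_fun, Module.finrank_pi_fintype, Finset.sum_const, Finset.card_univ,
    Fintype.card_fin, smul_eq_mul] at h
  exact h

theorem size_eq (e : Matrix (Fin r) (Fin r) Δ ≃ₐ[M] Matrix (Fin r') (Fin r') Δ') (h : 0 < r)
    (h' : 0 < r') : r = r' := by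
  have h1 := rank_eq e ⟨0, h⟩
  have h2 := rank_eq e.symm ⟨0, h'⟩
  exact Nat.dvd_antisymm ⟨_, h1⟩ ⟨_, h2⟩

theorem alg_eq (e : Matrix (Fin r) (Fin r) Δ ≃ₐ[M] Matrix (Fin r') (Fin r') Δ') (h : 0 < r)
    (h' : 0 < r') : Nonempty (Δ ≃ₐ[M] Δ') := by
  have hr := size_eq e h h'
  set i : Fin r := ⟨0, h⟩
  have h1 := rank_eq e i
  have h2 : Module.finrank Δ' (WW e i) = 1 := by
    exact Nat.eq_of_mul_eq_mul_left h (by rw [mul_one, ← h1]; exact hr.symm)
  obtain ⟨w, hw0, hw⟩ := finrank_eq_one_iff'.1 h2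
  have hw1 : (w : Fin r' → Δ') ≠ 0 := fun hh => hw0 (Subtype.ext hh)
  have hwm : (w : Fin r' → Δ') ᵥ* e (single i i 1) = w := w.2
  have key : ∀ δ : Δ, ∃ c : Δ', c • (w : Fin r' → Δ') = (w : Fin r' → Δ') ᵥ* e (single i i δ) := by
    intro δ
    obtain ⟨c, hc⟩ := hw ⟨(w : Fin r' → Δ') ᵥ* e (single i i δ), by
      rw [mem_WW, vecMul_vecMul, ← map_mul, single_mul_single_same, mul_one]⟩
    exact ⟨c, congrArg Subtype.val hc⟩
  choose φ hφ using key
  have inj : ∀ a b : Δ', a • (w : Fin r' → Δ') = b • (w : Fin r' → Δ') → a = b := by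
    intro a b hab
    exact smul_left_injective Δ' hw1 hab
  let f : Δ →ₐ[M] Δ' :=
    { toFun := φ
      map_one' := inj _ _ (by rw [hφ, one_smul, hwm])
      map_mul' := fun a b => inj _ _ (by
        rw [hφ, ← single_mul_single_same a i i i b, map_mul, ← vecMul_vecMul, ← hφ a, smul_vecMul,
          ← hφ b, smul_smul])
      map_zero' := inj _ _ (by rw [hφ, single_zero, map_zero, vecMul_zero, zero_smul])
      map_add' := fun a b => inj _ _ (by
        rw [hφ, single_add, map_add, vecMul_add, ← hφ a, ← hφ b, add_smul])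
      commutes' := fun m => inj _ _ (by
        rw [hφ, Algebra.algebraMap_eq_smul_one, ← smul_single, map_smul, vecMul_smul, hwm,
          Algebra.algebraMap_eq_smul_one, smul_assoc, one_smul]) }
  have hinj : Function.Injective f := f.toRingHom.injective
  have hsurj : Function.Surjective f := by
    intro d
    obtain ⟨k, hk⟩ : ∃ k, (w : Fin r' → Δ') k ≠ 0 := by
      by_contra hcon
      push Not at hcon
      exact hw1 (funext hcon)
    let A : Matrix (Fin r') (Fin r') Δ' := fun a b =>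
      if a = k then ((w : Fin r' → Δ') k)⁻¹ * d * (w : Fin r' → Δ') b else 0
    have hA : (w : Fin r' → Δ') ᵥ* A = d • (w : Fin r' → Δ') := by
      funext b
      simp only [vecMul, dotProduct, A, mul_ite, mul_zero, Finset.sum_ite_eq', Finset.mem_univ,
        if_true, Pi.smul_apply, smul_eq_mul]
      rw [← mul_assoc, ← mul_assoc, mul_inv_cancel₀ hk, one_mul]
    obtain ⟨B, hB⟩ := e.surjective A
    refine ⟨B i i, inj _ _ ?_⟩
    change φ (B i i) • (w : Fin r' → Δ') = _
    rw [hφ]
    have h3 : single i i (B i i) = single i i (1 : Δ) * B * single i i 1 := by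
      rw [single_mul_mul_single, one_mul, mul_one]
    rw [h3, map_mul, map_mul, ← vecMul_vecMul, ← vecMul_vecMul, hwm, hB, hA, smul_vecMul, hwm]
  exact ⟨AlgEquiv.ofBijective f ⟨hinj, hsurj⟩⟩

end

theorem UNI : ST_UNI.{u} := by
  intro M R Δ Δ' _ _ _ _ _ _ _ r r' h h'
  obtain ⟨h0, ⟨e⟩⟩ := h
  obtain ⟨h0', ⟨e'⟩⟩ := h'
  exact ⟨size_eq (e.symm.trans e') h0 h0', alg_eq (e.symm.trans e') h0 h0'⟩

end Pool.Agent.Helper67.KZ
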